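import Pool.Agent.TH958.T4.Rat
import Pool.Agent.W309.RK.Fin

/-!
The main theorem for the family `y ^ 2 = x (x - 1 - h ^ m) (x - 1 + h ^ m)`, `2 m = p ^ ν + 1`, over
function fields.
-/

set_option autoImplicit false
set_option linter.all false
set_option maxHeartbeats 4000000

open Polynomial WeierstrassCurve WeierstrassCurve.Affine

namespace Pool.Agent.TH958.T4

open Pool.Agent.W343.BSD Pool.Agent.W309.RK Pool.Agent.TH958.T2

theorem constDeg_eq_one {k K : Type} [Field k] [Field K] [Algebra k K]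
    (h : ∀ x : K, IsAlgebraic k x → x ∈ (algebraMap k K).range) : constDeg k K = 1 := by
  unfold constDeg
  have h1 : algebraicClosure k K = ⊥ := by
    rw [eq_bot_iff]
    intro x hx
    obtain ⟨c, hc⟩ := h x (mem_algebraicClosure_iff.1 hx)
    rw [IntermediateField.mem_bot]
    exact ⟨c, hc⟩
  rw [h1, IntermediateField.finrank_bot]

theorem disc_short {K : Type} [Field K] (h3 : (3 : K) ≠ 0) (α β : K) :
    4 * aOf α β ^ 3 + 27 * bOf α β ^ 2 = -(α * β * (α - β)) ^ 2 := by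
  unfold aOf bOf
  field_simp
  ring

theorem six_ne {k : Type} [Field k] {p : ℕ} (hp : p.Prime) (hp5 : 5 ≤ p) [CharP k p] :
    (6 : k) ≠ 0 := by
  intro h0
  have h1 : ((6 : ℕ) : k) = 0 := by exact_mod_cast h0
  rw [CharP.cast_eq_zero_iff k p] at h1
  have h2 : p ∣ 2 * 3 := h1
  rcases (Nat.Prime.dvd_mul hp).1 h2 with h3 | h3
  · have := Nat.le_of_dvd (by norm_num) h3; omega
  · have := Nat.le_of_dvd (by norm_num) h3; omega

theorem disc_ne {k K : Type} [Field k] [Field K] [Algebra k K] (h6 : (6 : k) ≠ 0) {Q m : ℕ} {h : K}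
    (hm : 0 < m) (hA : Admissible k Q h) :
    4 * aOf (1 + h ^ m) (1 - h ^ m) ^ 3 + 27 * bOf (1 + h ^ m) (1 - h ^ m) ^ 2 ≠ 0 := by
  have h2 : (2 : k) ≠ 0 := fun e => h6 (by linear_combination 3 * e)
  have h3 : (3 : k) ≠ 0 := fun e => h6 (by linear_combination 2 * e)
  have h2K : (2 : K) ≠ 0 := by
    have : algebraMap k K 2 ≠ 0 := by simpa using h2
    rwa [map_ofNat] at this
  have h3K : (3 : K) ≠ 0 := by
    have : algebraMap k K 3 ≠ 0 := by simpa using h3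
    rwa [map_ofNat] at this
  obtain ⟨v0, hv0, -, -, -⟩ := hA.zero
  obtain ⟨vi, hvi, -, -, -⟩ := hA.pole
  have hh0 : h ≠ 0 := ne_of_pos v0 hv0.ne'
  have hneg : vi.ord (h ^ m) < 0 := by
    rw [vi.ord_pow]
    exact mul_neg_of_pos_of_neg (by exact_mod_cast hm) hvi
  rw [disc_short h3K]
  refine neg_ne_zero.2 (pow_ne_zero 2 (mul_ne_zero (mul_ne_zero (ord_one_add vi hneg).1
    (ord_one_sub vi hneg).1) ?_))
  have e : 1 + h ^ m - (1 - h ^ m) = 2 * h ^ m := by ring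
  rw [e]
  exact mul_ne_zero h2K (pow_ne_zero _ hh0)

open Classical in
theorem main {p ν : ℕ} (hp : p.Prime) (hp5 : 5 ≤ p) (hQ4 : p ^ ν % 4 = 1) (hν : 1 ≤ ν) {k K : Type}
    [Field k] [Finite k] [Field K] [Algebra k K] [FF.IsFF k K] {n : ℕ}
    (hcard : Nat.card k = p ^ (2 * ν * n)) (hc : constDeg k K = 1)
    (hcl : Odd (S.classNumber k K)) {h : K} (hA : Admissible k (p ^ ν) h) :
    4 * aOf (1 + h ^ ((p ^ ν + 1) / 2)) (1 - h ^ ((p ^ ν + 1) / 2)) ^ 3 +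
        27 * bOf (1 + h ^ ((p ^ ν + 1) / 2)) (1 - h ^ ((p ^ ν + 1) / 2)) ^ 2 ≠ 0 ∧
    (∃ P : Fin (p ^ ν) → (shortW (aOf (1 + h ^ ((p ^ ν + 1) / 2)) (1 - h ^ ((p ^ ν + 1) / 2)))
        (bOf (1 + h ^ ((p ^ ν + 1) / 2)) (1 - h ^ ((p ^ ν + 1) / 2)))).toAffine.Point,
      LinearIndependent ℤ P) ∧
    ∀ M : ℕ, S.VanishesTo k (aOf (1 + h ^ ((p ^ ν + 1) / 2)) (1 - h ^ ((p ^ ν + 1) / 2)))
      (bOf (1 + h ^ ((p ^ ν + 1) / 2)) (1 - h ^ ((p ^ ν + 1) / 2))) M → M ≤ p ^ ν := by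
  have hpF : Fact p.Prime := ⟨hp⟩
  have hch : CharP k p := charP_of_card hp hcard
  obtain ⟨⟨i, hi⟩, ω, hω⟩ := exists_prim_and_i (p := p) (by omega) hcard
  have h6 : (6 : k) ≠ 0 := six_ne hp hp5
  obtain ⟨l, hl⟩ : ∃ l, p ^ ν = 4 * l + 1 := ⟨p ^ ν / 4, by omega⟩
  have hpf : p ≤ p ^ ν := Nat.le_self_pow (by omega) p
  have hl0 : 0 < l := by omega
  have hm : (p ^ ν + 1) / 2 = 2 * l + 1 := by omega
  rw [hm]
  have hωl : IsPrimitiveRoot ω (4 * l + 2) := by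
    have e : p ^ ν + 1 = 4 * l + 2 := by omega
    rwa [e] at hω
  refine ⟨disc_ne h6 (by omega) hA, ?_, ?_⟩
  · rw [hl] at hA
    obtain ⟨P, hP⟩ := lower h6 hl hl0 hi hωl hA
    refine ⟨fun j => P (Fin.cast hl j), ?_⟩
    exact hP.comp _ (Fin.cast_injective hl)
  · intro M hM
    rw [hl] at hA ⊢
    exact upper h6 hc hcl hωl hA M hM

end Pool.Agent.TH958.T4
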