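import Pool.Agent.TH958.T4.Ub
import Pool.Agent.W309.RK.Alg
import Pool.Agent.W309.RK.Root

/-!
Independent points on `y ^ 2 = x (x - 1 - h ^ m) (x - 1 + h ^ m)`, `2 m = p ^ ν + 1`.
-/

set_option autoImplicit false
set_option linter.all false
set_option maxHeartbeats 4000000

open Polynomial WeierstrassCurve WeierstrassCurve.Affine
open scoped Classical

namespace Pool.Agent.TH958.T4

open Pool.Agent.W343.BSD Pool.Agent.W309.RK Pool.Agent.TH958.T2

theorem del_fst {K : Type} [Field K] (h3 : (3 : K) ≠ 0) {α β x y : K}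
    (hn : (shortW (aOf α β) (bOf α β)).toAffine.Nonsingular (x - (α + β) / 3) y) (hx : x ≠ 0) :
    del (shortW (aOf α β) (bOf α β)).toAffine (-(α + β) / 3) (Point.some _ y hn) = x := by
  have e : x - (α + β) / 3 - -(α + β) / 3 = x := by ring
  simp only [del]
  rw [if_neg (fun h => hx (by linear_combination (-1) * e + h)), e]

section low

variable {k K : Type} [Field k] [Field K] [Algebra k K] (h6 : (6 : k) ≠ 0) {p : ℕ} [Fact p.Prime]
  [CharP k p] {ν l : ℕ} (hQ : p ^ ν = 4 * l + 1) (hl : 0 < l) {i : k} (hi : i ^ 2 = -1)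

/-- The points: `x`, `x - α` up to squares. -/
def Dat (l : ℕ) (h p q : K) : Prop :=
  ∃ (x y s0 s1 : K), s0 ≠ 0 ∧ s1 ≠ 0 ∧ y ≠ 0 ∧
    y ^ 2 = x * (x - (1 + h ^ (2 * l + 1))) * (x - (1 - h ^ (2 * l + 1))) ∧ x = p * s0 ^ 2 ∧
    x - (1 + h ^ (2 * l + 1)) = q * s1 ^ 2

variable {h : K}

theorem dat_R {i : K} (hi : i ^ 2 = -1) (hh : h ≠ 0) : Dat l h 1 (-h) := by
  have hi0 : i ≠ 0 := by
    rintro rfl
    rw [zero_pow two_ne_zero] at hi
    exact one_ne_zero (neg_eq_zero.1 hi.symm)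
  refine ⟨1, i * h ^ (2 * l + 1), 1, h ^ l, one_ne_zero, pow_ne_zero _ hh,
    mul_ne_zero hi0 (pow_ne_zero _ hh), ?_, by ring, by ring⟩
  linear_combination ((h ^ (2 * l + 1)) ^ 2) * hi

include h6 hQ hl hi in
theorem dat_z (hh : ∀ c : k, h ≠ algebraMap k K c) (hz2 : ∀ c : k, c ≠ 0 →
    (algebraMap k K c * h - 1) ^ (2 * l) ≠ 1) {ζ : k}
    (hζ : ζ ^ (2 * l + 1) = 1 ∨ ζ ^ (2 * l + 1) = -1) :
    Dat l h (algebraMap k K (-ζ⁻¹) * (h - algebraMap k K ζ))
      (if ζ ^ (2 * l + 1) = 1 then algebraMap k K (-(2 * ζ⁻¹)) * h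
        else algebraMap k K (-(2 * ζ⁻¹ * ζ⁻¹)) * (h * (h - algebraMap k K ζ))) := by
  have h2 : (2 : k) ≠ 0 := fun e => h6 (by linear_combination 3 * e)
  have hζ' : ζ ^ (4 * l + 2) = 1 := by
    rw [show 4 * l + 2 = (2 * l + 1) * 2 by ring, pow_mul]
    rcases hζ with e | e <;> rw [e] <;> ring
  have hζ0 : ζ ≠ 0 := by
    rintro rfl
    rw [zero_pow (by omega)] at hζ'
    exact zero_ne_one hζ'
  have hinj : Function.Injective (algebraMap k K) := (algebraMap k K).injective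
  haveI : CharP K p := charP_of_injective_ringHom hinj p
  have h2K : (2 : K) ≠ 0 := by
    have : algebraMap k K 2 ≠ 0 := by simpa using h2
    rwa [map_ofNat] at this
  have hiK : (algebraMap k K i) ^ 2 = -1 := by rw [← map_pow, hi, map_neg, map_one]
  have hinv : algebraMap k K ζ⁻¹ * algebraMap k K ζ = 1 := by
    rw [← map_mul, inv_mul_cancel₀ hζ0, map_one]
  set z : K := algebraMap k K ζ⁻¹ * h - 1 with hz
  have hzH : z = algebraMap k K ζ⁻¹ * (h - algebraMap k K ζ) := by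
    rw [hz]; linear_combination hinv
  have hz0 : z ≠ 0 := by
    rw [hzH]
    exact mul_ne_zero (by simpa using hζ0) (sub_ne_zero.2 (hh ζ))
  have hzh : z + 1 ^ 2 = algebraMap k K ζ⁻¹ * h := by rw [hz]; ring
  have hnz : z ^ (2 * l) - (1 ^ 2) ^ (2 * l) ≠ 0 := by
    rw [one_pow, one_pow]
    exact sub_ne_zero.2 (hz2 ζ⁻¹ (inv_ne_zero hζ0))
  have hw : h ^ (4 * l + 2) = (z + 1 ^ 2) ^ (4 * l + 2) := by
    rw [hzh, mul_pow, ← map_pow, inv_pow, hζ', inv_one, map_one, one_mul]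
  have hpt := pt_eq hQ hw
  have hy0 : z ^ (l + 1) * 1 * (z ^ (2 * l) - (1 ^ 2) ^ (2 * l)) ≠ 0 :=
    mul_ne_zero (mul_ne_zero (pow_ne_zero _ hz0) one_ne_zero) hnz
  have e1 : ((1 : K) ^ 2) ^ (2 * l + 1) = 1 := by rw [one_pow, one_pow]
  have hxa : -z ^ (2 * l + 1) - (1 + h ^ (2 * l + 1)) ≠ 0 := by
    intro e
    apply pow_ne_zero 2 hy0
    rw [hpt, e1, e]
    ring
  have ex : -z ^ (2 * l + 1) = algebraMap k K (-ζ⁻¹) * (h - algebraMap k K ζ) * (z ^ l) ^ 2 := by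
    rw [map_neg]
    linear_combination (-(z ^ l) ^ 2) * hzH
  rcases hζ with h1 | h1
  · rw [if_pos h1]
    have e3 : h ^ (2 * l + 1) = (z + 1 ^ 2) ^ (2 * l + 1) := by
      rw [hzh, mul_pow, ← map_pow, inv_pow, h1, inv_one, map_one, one_mul]
    have e2 := plus_eq h2K hQ (f := (1 : K)) (z := z) hiK
    have e4 : -z ^ (2 * l + 1) - (1 + h ^ (2 * l + 1)) =
        algebraMap k K (-(2 * ζ⁻¹)) * h * (co (algebraMap k K i) 1 z l).1 ^ 2 := by
      rw [map_neg, map_mul, map_ofNat, e3]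
      linear_combination (-2 * (co (algebraMap k K i) 1 z l).1 ^ 2) * hzh - e2 + e1
    refine ⟨_, _, _, _, pow_ne_zero _ hz0, ?_, hy0, ?_, ex, e4⟩
    · rw [e4] at hxa
      intro h0
      apply hxa
      rw [h0]
      ring
    · rw [hpt, e1]
  · have hne : ζ ^ (2 * l + 1) ≠ 1 := by
      rw [h1]
      intro e
      apply h2
      linear_combination -e
    rw [if_neg hne]
    have e3 : h ^ (2 * l + 1) = -(z + 1 ^ 2) ^ (2 * l + 1) := by
      rw [hzh, mul_pow, ← map_pow, inv_pow, h1, inv_neg, inv_one, map_neg, map_one]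
      ring
    have e2 := minus_eq h2K hQ (f := (1 : K)) (z := z) hiK
    have e4 : -z ^ (2 * l + 1) - (1 + h ^ (2 * l + 1)) =
        algebraMap k K (-(2 * ζ⁻¹ * ζ⁻¹)) * (h * (h - algebraMap k K ζ)) *
          (co (algebraMap k K i) 1 z l).2 ^ 2 := by
      rw [map_neg, map_mul, map_mul, map_ofNat, e3]
      linear_combination (-2 * z * (co (algebraMap k K i) 1 z l).2 ^ 2) * hzh - e2 -
        (2 * algebraMap k K ζ⁻¹ * h * (co (algebraMap k K i) 1 z l).2 ^ 2) * hzH + e1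
    refine ⟨_, _, _, _, pow_ne_zero _ hz0, ?_, hy0, ?_, ex, e4⟩
    · rw [e4] at hxa
      intro h0
      apply hxa
      rw [h0]
      ring
    · rw [hpt, e1]

theorem two0 : (2 : ZMod 2) = 0 := rfl

/-- A point with given data. -/
theorem pt_of_dat (h2 : (2 : K) ≠ 0) (h3 : (3 : K) ≠ 0) {p q : K} (hD : Dat l h p q) (hp : p ≠ 0)
    (hq : q ≠ 0) :
    ∃ P : (shortW (aOf (1 + h ^ (2 * l + 1)) (1 - h ^ (2 * l + 1)))
        (bOf (1 + h ^ (2 * l + 1)) (1 - h ^ (2 * l + 1)))).toAffine.Point,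
      ∀ (v : FF.Place k K),
        ((v.ord (del _ (-((1 + h ^ (2 * l + 1)) + (1 - h ^ (2 * l + 1))) / 3) P) : ℤ) : ZMod 2) =
          ((v.ord p : ℤ) : ZMod 2) ∧
        ((v.ord (del _ ((2 * (1 + h ^ (2 * l + 1)) - (1 - h ^ (2 * l + 1))) / 3) P) : ℤ) : ZMod 2) =
          ((v.ord q : ℤ) : ZMod 2) := by
  obtain ⟨x, y, s0, s1, hs0, hs1, hy, he, hx, hxa⟩ := hD
  have hn := short_ns h2 h3 hy he
  refine ⟨Point.some _ y hn, fun v => ?_⟩
  have hx0 : x ≠ 0 := by rw [hx]; exact mul_ne_zero hp (pow_ne_zero _ hs0)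
  have hxa0 : x ≠ 1 + h ^ (2 * l + 1) := by
    rw [← sub_ne_zero, hxa]; exact mul_ne_zero hq (pow_ne_zero _ hs1)
  constructor
  · rw [del_fst h3 hn hx0, hx, v.ord_mul hp (pow_ne_zero _ hs0), v.ord_pow]
    push_cast
    linear_combination ((v.ord s0 : ℤ) : ZMod 2) * two0
  · rw [del_mid h3 hn hxa0, hxa, v.ord_mul hq (pow_ne_zero _ hs1), v.ord_pow]
    push_cast
    linear_combination ((v.ord s1 : ℤ) : ZMod 2) * two0

theorem cast_odd {n : ℤ} (hn : Odd n) : ((n : ℤ) : ZMod 2) = 1 := by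
  obtain ⟨r, rfl⟩ := hn
  push_cast
  linear_combination (r : ZMod 2) * two0

include h6 hQ hl hi in
theorem lower {ω : k} (hω : IsPrimitiveRoot ω (4 * l + 2)) (hA : Admissible k (4 * l + 1) h) :
    ∃ P : Fin (4 * l + 1) → (shortW (aOf (1 + h ^ (2 * l + 1)) (1 - h ^ (2 * l + 1)))
        (bOf (1 + h ^ (2 * l + 1)) (1 - h ^ (2 * l + 1)))).toAffine.Point,
      LinearIndependent ℤ P := by
  have h2 : (2 : k) ≠ 0 := fun e => h6 (by linear_combination 3 * e)
  have h3 : (3 : k) ≠ 0 := fun e => h6 (by linear_combination 2 * e)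
  have h2K : (2 : K) ≠ 0 := by
    have : algebraMap k K 2 ≠ 0 := by simpa using h2
    rwa [map_ofNat] at this
  have h3K : (3 : K) ≠ 0 := by
    have : algebraMap k K 3 ≠ 0 := by simpa using h3
    rwa [map_ofNat] at this
  have hpos : 0 < 4 * l + 2 := by omega
  let ι := {z : k // z ∈ nthRootsFinset (4 * l + 2) (1 : k)}
  letI : Fintype ι := Finset.Subtype.fintype _
  have hι : ∀ z : ι, z.1 ^ (4 * l + 2) = 1 := fun z => (mem_nthRootsFinset hpos 1).1 z.2
  have hsg : ∀ x : k, x ^ (4 * l + 2) = 1 → x ^ (2 * l + 1) = 1 ∨ x ^ (2 * l + 1) = -1 := by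
    intro x h3
    apply mul_self_eq_one_iff.1
    rw [← h3]
    ring
  have hsgn : ∀ z : ι, z.1 ^ (2 * l + 1) = 1 ∨ z.1 ^ (2 * l + 1) = -1 := fun z =>
    hsg z.1 (hι z)
  have hζ0 : ∀ z : ι, z.1 ≠ 0 := by
    intro z e
    have := hι z
    rw [e, zero_pow (by omega)] at this
    exact zero_ne_one this
  have hcard : Fintype.card ι = 4 * l + 2 := by
    rw [Fintype.card_coe, hω.card_nthRootsFinset]
  obtain ⟨v0, hv0, hv0o, hv0d, hv0u⟩ := hA.zero
  obtain ⟨vi, hvi, hvio, hvid, hviu⟩ := hA.pole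
  have hsh := fun z : ι => hA.shift z.1 (hι z)
  choose V hV1 hV2 hV3 hV4 using hsh
  have hh0 : h ≠ 0 := ne_of_pos v0 hv0.ne'
  have hhc : ∀ c : k, h ≠ algebraMap k K c := by
    intro c e
    rw [e] at hvi
    by_cases hc : c = 0
    · rw [hc, map_zero, vi.ord_zero] at hvi
      exact lt_irrefl _ hvi
    · rw [vi.ord_const hc] at hvi
      exact lt_irrefl _ hvi
  have hz2 : ∀ c : k, c ≠ 0 → (algebraMap k K c * h - 1) ^ (2 * l) ≠ 1 := by
    intro c hc e
    have hcK : algebraMap k K c ≠ 0 := by simpa using hc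
    have h1 : vi.ord (algebraMap k K c * h) < 0 := by
      rw [vi.ord_mul hcK hh0, vi.ord_const hc, zero_add]; exact hvi
    have h3 := (ord_one_sub vi h1).2
    have h5 : vi.ord (algebraMap k K c * h - 1) = vi.ord (algebraMap k K c * h) := by
      rw [← h3, ← vi.ord_neg]
      congr 1
      ring
    have h7 := congrArg vi.ord e
    rw [vi.ord_pow, h5, vi.ord_one] at h7
    have h9 : ((2 * l : ℕ) : ℤ) * vi.ord (algebraMap k K c * h) < 0 :=
      mul_neg_of_pos_of_neg (by exact_mod_cast (by omega : 0 < 2 * l)) h1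
    omega
  have hiK : (algebraMap k K i) ^ 2 = -1 := by rw [← map_pow, hi, map_neg, map_one]
  set α : K := 1 + h ^ (2 * l + 1) with hα
  set β : K := 1 - h ^ (2 * l + 1) with hβ
  let φo : Option ι → ((shortW (aOf α β) (bOf α β)).toAffine.Point →+ ZMod 2) := fun o =>
    match o with
    | none => parHom (hasRoot_mid h3K α β) v0.ord (fun f g hf hg => v0.ord_mul hf hg)
    | some z => parHom (hasRoot_fst h3K α β) (V z).ord (fun f g hf hg => (V z).ord_mul hf hg)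
  let φ : (shortW (aOf α β) (bOf α β)).toAffine.Point →+ (Option ι → ZMod 2) :=
    AddMonoidHom.pi φo
  have hH0 : ∀ z : ι, h - algebraMap k K z.1 ≠ 0 := fun z => sub_ne_zero.2 (hhc z.1)
  have hc0 : ∀ z : ι, algebraMap k K (-z.1⁻¹) ≠ 0 := fun z => by
    simpa using hζ0 z
  have hc1 : ∀ z : ι, -(2 * z.1⁻¹) ≠ 0 := fun z =>
    neg_ne_zero.2 (mul_ne_zero h2 (inv_ne_zero (hζ0 z)))
  have hc2 : ∀ z : ι, -(2 * z.1⁻¹ * z.1⁻¹) ≠ 0 := fun z =>
    neg_ne_zero.2 (mul_ne_zero (mul_ne_zero h2 (inv_ne_zero (hζ0 z))) (inv_ne_zero (hζ0 z)))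
  have hc1' : ∀ z : ι, algebraMap k K (-(2 * z.1⁻¹)) ≠ 0 := fun z =>
    (map_ne_zero (algebraMap k K)).2 (hc1 z)
  have hc2' : ∀ z : ι, algebraMap k K (-(2 * z.1⁻¹ * z.1⁻¹)) ≠ 0 := fun z =>
    (map_ne_zero (algebraMap k K)).2 (hc2 z)
  have hp0 : ∀ z : ι, algebraMap k K (-z.1⁻¹) * (h - algebraMap k K z.1) ≠ 0 := fun z =>
    mul_ne_zero (hc0 z) (hH0 z)
  have hq0 : ∀ z : ι, (if z.1 ^ (2 * l + 1) = 1 then algebraMap k K (-(2 * z.1⁻¹)) * h
        else algebraMap k K (-(2 * z.1⁻¹ * z.1⁻¹)) * (h * (h - algebraMap k K z.1))) ≠ 0 := by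
    intro z
    split_ifs
    · exact mul_ne_zero (hc1' z) hh0
    · exact mul_ne_zero (hc2' z) (mul_ne_zero hh0 (hH0 z))
  obtain ⟨R, hR⟩ := pt_of_dat (k := k) h2K h3K (dat_R (l := l) hiK hh0) one_ne_zero
    (neg_ne_zero.2 hh0)
  have hPz := fun z : ι => pt_of_dat (k := k) h2K h3K
    (dat_z h6 hQ hl hi hhc hz2 (hsgn z)) (hp0 z) (hq0 z)
  choose P hP using hPz
  -- the values
  have v1 : φ R none = 1 := by
    show ((v0.ord (del _ _ R) : ℤ) : ZMod 2) = 1
    rw [(hR v0).2, v0.ord_neg, cast_odd hv0o]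
  have v2 : ∀ w : ι, φ R (some w) = 0 := by
    intro w
    show (((V w).ord (del _ _ R) : ℤ) : ZMod 2) = 0
    rw [(hR (V w)).1, (V w).ord_one, Int.cast_zero]
  have hv0z : ∀ z : ι, v0.ord (h - algebraMap k K z.1) = 0 := fun z =>
    (ord_sub_const v0 hv0 (hζ0 z)).2
  have v3 : ∀ z : ι, φ (P z) none = 1 := by
    intro z
    show ((v0.ord (del _ _ (P z)) : ℤ) : ZMod 2) = 1
    rw [((hP z) v0).2]
    split_ifs with hz
    · rw [v0.ord_mul (hc1' z) hh0, v0.ord_const (hc1 z), zero_add, cast_odd hv0o]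
    · rw [v0.ord_mul (hc2' z) (mul_ne_zero hh0 (hH0 z)), v0.ord_const (hc2 z), zero_add,
        v0.ord_mul hh0 (hH0 z), hv0z, add_zero, cast_odd hv0o]
  have v4 : ∀ z w : ι, φ (P z) (some w) = if w = z then 1 else 0 := by
    intro z w
    show (((V w).ord (del _ _ (P z)) : ℤ) : ZMod 2) = _
    rw [((hP z) (V w)).1, (V w).ord_mul (hc0 z) (hH0 z),
      (V w).ord_const (neg_ne_zero.2 (inv_ne_zero (hζ0 z))), zero_add]
    by_cases hwz : w = z
    · subst hwz
      rw [if_pos rfl, cast_odd (hV2 w)]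
    · rw [if_neg hwz, (ord_shift (V w) (hV1 w) (fun e => hwz (Subtype.ext e))).2, Int.cast_zero]
  have hsurj : Function.Surjective φ := by
    refine surjective_of_single φ (fun o => match o with
      | none => R
      | some z => P z + R) ?_
    intro o o'
    rcases o with _ | z
    · rcases o' with _ | w
      · rw [if_pos rfl]; exact v1
      · rw [if_neg (by simp)]; exact v2 w
    · show φ (P z + R) o' = _
      rw [map_add, Pi.add_apply]
      rcases o' with _ | w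
      · rw [if_neg (by simp), v1, v3]
        exact CharTwo.add_self_eq_zero (1 : ZMod 2)
      · rw [v2, v4, add_zero]
        by_cases hwz : w = z
        · rw [if_pos hwz, if_pos (by rw [hwz])]
        · rw [if_neg hwz, if_neg (fun e => hwz (Option.some.inj e))]
  obtain ⟨hf1, hf2⟩ := short_card_two h2K h3K α β
  have hfin := exists_independent φ hsurj hf1 hf2
  have hcc : Fintype.card (Option ι) - 2 = 4 * l + 1 := by
    rw [Fintype.card_option, hcard]; omega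
  rw [hcc] at hfin
  exact hfin

end low

end Pool.Agent.TH958.T4
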