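import Pool.Agent.TH958.T4.Lb
import Pool.Agent.W309.RF.ZetaR

/-!
Admissible polynomials over the rational function field.
-/

set_option autoImplicit false
set_option linter.all false
set_option maxHeartbeats 4000000

open Polynomial FF

namespace Pool.Agent.TH958.T4

open Pool.Agent.W343.BSD Pool.Agent.W309.RK Pool.Agent.W309.RF Pool.Agent.H525R3.FFp

section

variable {k : Type} [Field k] [Finite k]

theorem ord_inf_A {p : k[X]} (hp : p ≠ 0) : (infty k).ord (A p) = -(p.natDegree : ℤ) :=
  inf_ord' infty_X hp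

theorem oneZero_irr {π : k[X]} (hπ : Irreducible π) (hodd : Odd π.natDegree) :
    OneZero k (A π) := by
  classical
  have hpos : 0 < π.natDegree := hodd.pos
  have hinf := ord_inf_A (k := k) hπ.ne_zero
  have hfin : ∀ w : Place k (RatFunc k), 0 < w.ord (A π) → w ≠ infty k := by
    rintro w hw rfl
    rw [hinf] at hw
    omega
  obtain ⟨v, hv⟩ : ∃ v : Place k (RatFunc k), 0 < v.ord (A π) := by
    by_contra hcon
    push Not at hcon
    have h0 : ddeg (divisor k (A π)) = 0 := ddeg_divisor _
    have hle : divisor k (A π) ≤ Finsupp.single (infty k) (-(π.natDegree : ℤ)) := by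
      intro w
      rw [divisor_apply, Finsupp.single_apply]
      split_ifs with h
      · subst h; rw [hinf]
      · exact hcon w
    have h2 := ddeg_mono hle
    rw [ddeg_single, h0, inf_deg infty_X] at h2
    push_cast at h2
    omega
  have hvf := fin_of_ne (hfin v hv)
  obtain ⟨π', hm, hirr, hord, hnn, hdvd, hdeg⟩ := fin_exists hvf
  have hass : Associated π' π := hirr.associated_of_dvd hπ ((hdvd π hπ.ne_zero).1 hv)
  have hord1 : v.ord (A π) = 1 := by
    obtain ⟨u, hu⟩ := hass
    obtain ⟨c, hc, hcu⟩ := Polynomial.isUnit_iff.1 u.isUnit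
    rw [← hu, ← hcu]
    show v.ord (algebraMap k[X] (RatFunc k) _) = 1
    have hc' : c ≠ 0 := hc.ne_zero
    rw [map_mul, v.ord_mul (A_ne hirr.ne_zero) (A_ne (C_ne_zero.2 hc')), hord, A_C,
      v.ord_const hc', add_zero]
  refine ⟨v, hv, by rw [hord1]; exact odd_one, ?_, fun w hw => ?_⟩
  · rw [S.deg_eq, hdeg, deg_of_assoc hass]
    exact hodd
  · exact fin_unique (fin_of_ne (hfin w hw)) hvf hπ hw hv

theorem admissible_of {Q : ℕ} {h : k[X]} (hh : Irreducible h) (hodd : Odd h.natDegree)
    (hz : ∀ z : k, z ^ (Q + 1) = 1 → Irreducible (h - C z)) :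
    Admissible k Q (algebraMap k[X] (RatFunc k) h) where
  zero := oneZero_irr hh hodd
  shift := by
    intro z hzz
    have h1 := oneZero_irr (hz z hzz) (by rw [natDegree_sub_C]; exact hodd)
    have e : A (h - C z) = algebraMap k[X] (RatFunc k) h - algebraMap k (RatFunc k) z := by
      show algebraMap k[X] (RatFunc k) (h - C z) = _
      rw [map_sub, ← A_C]
    rwa [e] at h1
  pole := by
    have hinf := ord_inf_A (k := k) hh.ne_zero
    refine ⟨infty k, ?_, ?_, ?_, ?_⟩
    · show (infty k).ord (A h) < 0
      rw [hinf]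
      have := hodd.pos
      omega
    · show Odd ((infty k).ord (A h))
      rw [hinf, odd_neg]
      exact_mod_cast hodd
    · rw [S.deg_eq, inf_deg infty_X]
      exact odd_one
    · intro w hw _
      by_contra hne
      have h1 : 0 ≤ w.ord (A h) := (w.reg_iff (A_ne hh.ne_zero)).1 (fin_reg (fin_of_ne hne) h)
      have h3 : w.ord (A h) < 0 := hw
      omega

theorem isCurveField_rat : IsCurveField k (RatFunc k) := by
  have h1 := (sb k).1
  exact ⟨h1.1, h1.2, fun x hx => const_rat x hx⟩

end

end Pool.Agent.TH958.T4
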