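import Pool.Agent.W309.RK.SCproof
import Pool.Agent.W309.RK.Short
import Pool.Agent.W309.RK.Exist
import Pool.Agent.TH958.T2.Idn

/-!
The family `y ^ 2 = x (x - 1 - h ^ m) (x - 1 + h ^ m)`, `2 m = p ^ ν + 1`, over a function field.
-/

set_option autoImplicit false
set_option linter.all false
set_option maxHeartbeats 4000000

open Polynomial WeierstrassCurve WeierstrassCurve.Affine

namespace Pool.Agent.TH958.T4

open Pool.Agent.W343.BSD Pool.Agent.W309.RK Pool.Agent.TH958.T2

section defs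

variable (k : Type) {K : Type} [Field k] [Field K] [Algebra k K]

/-- `x` has exactly one zero, and the order of this zero and the degree of the place are odd. -/
def OneZero (x : K) : Prop :=
  ∃ v : FF.Place k K, 0 < v.ord x ∧ Odd (v.ord x) ∧ Odd (S.deg v) ∧
    ∀ w : FF.Place k K, 0 < w.ord x → w = v

/-- Exactly one of the poles of `x` has odd order, and the degree of this place is odd. -/
def OneOddPole (x : K) : Prop :=
  ∃ v : FF.Place k K, v.ord x < 0 ∧ Odd (v.ord x) ∧ Odd (S.deg v) ∧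
    ∀ w : FF.Place k K, w.ord x < 0 → Odd (w.ord x) → w = v

/-- The conditions on the function `h`. -/
structure Admissible (Q : ℕ) (h : K) : Prop where
  zero : OneZero k h
  shift : ∀ ζ : k, ζ ^ (Q + 1) = 1 → OneZero k (h - algebraMap k K ζ)
  pole : OneOddPole k h

end defs

section ord

variable {k K : Type} [Field k] [Field K] [Algebra k K] (v : FF.Place k K)

theorem ord_sub_const {x : K} (hx : 0 < v.ord x) {c : k} (hc : c ≠ 0) :
    x - algebraMap k K c ≠ 0 ∧ v.ord (x - algebraMap k K c) = 0 := by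
  have hx0 : x ≠ 0 := by
    rintro rfl
    rw [v.ord_zero] at hx
    exact lt_irrefl _ hx
  have hc0 : -algebraMap k K c ≠ 0 := neg_ne_zero.2 (by simpa using hc)
  have h1 : v.ord (-algebraMap k K c) = 0 := by rw [v.ord_neg, v.ord_const hc]
  have h3 := v.ord_add_eq (f := -algebraMap k K c) (g := x) hc0 hx0 (by rw [h1]; exact hx)
  rw [neg_add_eq_sub, h1] at h3
  exact h3

/-- two different shifts have no common zeros -/
theorem ord_shift {h : K} {c d : k} (hc : 0 < v.ord (h - algebraMap k K c)) (hcd : c ≠ d) :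
    h - algebraMap k K d ≠ 0 ∧ v.ord (h - algebraMap k K d) = 0 := by
  have := ord_sub_const v hc (c := d - c) (sub_ne_zero.2 (Ne.symm hcd))
  rw [map_sub] at this
  have e : h - algebraMap k K c - (algebraMap k K d - algebraMap k K c) = h - algebraMap k K d := by
    ring
  rwa [e] at this

theorem ord_of_zero {h : K} {c : k} (hc : 0 < v.ord (h - algebraMap k K c)) (hc0 : c ≠ 0) :
    h ≠ 0 ∧ v.ord h = 0 := by
  have := ord_shift v hc hc0
  rwa [map_zero, sub_zero] at this

theorem ne_of_pos {x : K} (hx : v.ord x ≠ 0) : x ≠ 0 := by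
  rintro rfl
  exact hx v.ord_zero

theorem ord_nonneg_sub {h : K} (hh : 0 ≤ v.ord h) (c : k) : 0 ≤ v.ord (h - algebraMap k K c) := by
  by_cases h0 : h - algebraMap k K c = 0
  · rw [h0, v.ord_zero]
  · have h1 : v.Reg (h - algebraMap k K c) := by
      rw [sub_eq_add_neg]
      exact v.reg_add (Or.inr hh) (v.reg_neg (v.reg_const c))
    exact (v.reg_iff h0).1 h1

theorem ord_one_add {x : K} (hx : v.ord x < 0) : 1 + x ≠ 0 ∧ v.ord (1 + x) = v.ord x := by
  have hx0 : x ≠ 0 := ne_of_pos v hx.ne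
  have := v.ord_add_eq (f := x) (g := 1) hx0 one_ne_zero (by rw [v.ord_one]; exact hx)
  rwa [add_comm] at this

theorem ord_one_sub {x : K} (hx : v.ord x < 0) : 1 - x ≠ 0 ∧ v.ord (1 - x) = v.ord x := by
  have := ord_one_add v (x := -x) (by rwa [v.ord_neg])
  rwa [v.ord_neg, ← sub_eq_add_neg] at this

theorem ord_one_add' {x : K} (hx : 0 < v.ord x) : 1 + x ≠ 0 ∧ v.ord (1 + x) = 0 := by
  have hx0 : x ≠ 0 := ne_of_pos v hx.ne'
  have := v.ord_add_eq (f := 1) (g := x) one_ne_zero hx0 (by rw [v.ord_one]; exact hx)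
  rwa [v.ord_one] at this

theorem ord_one_sub' {x : K} (hx : 0 < v.ord x) : 1 - x ≠ 0 ∧ v.ord (1 - x) = 0 := by
  have := ord_one_add' v (x := -x) (by rwa [v.ord_neg])
  rwa [← sub_eq_add_neg] at this

theorem ord_prod {ι : Type} (s : Finset ι) (g : ι → K) (hg : ∀ i ∈ s, g i ≠ 0) :
    v.ord (∏ i ∈ s, g i) = ∑ i ∈ s, v.ord (g i) := by
  classical
  induction s using Finset.induction_on with
  | empty => rw [Finset.prod_empty, Finset.sum_empty, v.ord_one]
  | insert a s ha ih =>
    rw [Finset.prod_insert ha, Finset.sum_insert ha, v.ord_mul (hg a (Finset.mem_insert_self _ _))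
      (Finset.prod_ne_zero_iff.2 fun i hi => hg i (Finset.mem_insert_of_mem hi)),
      ih fun i hi => hg i (Finset.mem_insert_of_mem hi)]

end ord

section fac

variable {k K : Type} [Field k] [Field K] [Algebra k K]

theorem fac_sub {m : ℕ} (hm : 0 < m) {μ : k} (hμ : IsPrimitiveRoot μ m) (h : K) :
    h ^ m - 1 = ∏ z ∈ nthRootsFinset m (1 : k), (h - algebraMap k K z) := by
  have h1 := X_pow_sub_one_eq_prod hm hμ
  have h3 := congrArg (fun P : k[X] => aeval h P) h1
  simp only [map_sub, map_pow, aeval_X, map_one, map_prod, aeval_C] at h3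
  exact h3

theorem one_sub_eq {m : ℕ} (hm : 0 < m) {μ : k} (hμ : IsPrimitiveRoot μ m) (h : K) :
    1 - h ^ m = -∏ z ∈ nthRootsFinset m (1 : k), (h - algebraMap k K z) := by
  rw [← fac_sub hm hμ]
  ring

theorem one_add_eq {m : ℕ} (hm : Odd m) {μ : k} (hμ : IsPrimitiveRoot μ m) (h : K) :
    1 + h ^ m = ∏ z ∈ nthRootsFinset m (1 : k), (h - algebraMap k K (-z)) := by
  have h1 := one_sub_eq hm.pos hμ (-h)
  rw [Odd.neg_pow hm, sub_neg_eq_add] at h1
  rw [h1]
  have hcard := hμ.card_nthRootsFinset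
  have h3 : ∏ z ∈ nthRootsFinset m (1 : k), (-h - algebraMap k K z) =
      ∏ z ∈ nthRootsFinset m (1 : k), ((-1) * (h - algebraMap k K (-z))) := by
    refine Finset.prod_congr rfl fun z _ => ?_
    rw [map_neg]
    ring
  rw [h3, Finset.prod_mul_distrib, Finset.prod_const, hcard, Odd.neg_one_pow hm]
  ring

end fac

section upper

variable {k K : Type} [Field k] [Finite k] [Field K] [Algebra k K] [FF.IsFF k K]

theorem twoPart_odd {n : ℕ} (hn : Odd n) : twoPart n = 1 := by
  unfold twoPart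
  have : ¬ 2 ∣ n := by
    intro h2
    obtain ⟨j, hj⟩ := hn
    omega
  rw [padicValNat.eq_zero_of_not_dvd this, pow_zero]

theorem sum_insert_le {ι : Type} [DecidableEq ι] (a : ι) (s : Finset ι) (f : ι → ℕ) :
    ∑ i ∈ insert a s, f i ≤ f a + ∑ i ∈ s, f i := by
  by_cases h : a ∈ s
  · rw [Finset.insert_eq_of_mem h]
    exact Nat.le_add_left _ _
  · rw [Finset.sum_insert h]

theorem upper (h6 : (6 : k) ≠ 0) (hc : constDeg k K = 1) (hcl : Odd (S.classNumber k K)) {l : ℕ}
    {ω : k} (hω : IsPrimitiveRoot ω (4 * l + 2)) {h : K} (hA : Admissible k (4 * l + 1) h) (M : ℕ)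
    (hM : S.VanishesTo k (aOf (1 + h ^ (2 * l + 1)) (1 - h ^ (2 * l + 1)))
      (bOf (1 + h ^ (2 * l + 1)) (1 - h ^ (2 * l + 1))) M) : M ≤ 4 * l + 1 := by
  classical
  have h2 : (2 : k) ≠ 0 := fun e => h6 (by linear_combination 3 * e)
  have h2K : (2 : K) ≠ 0 := by
    have : algebraMap k K 2 ≠ 0 := by simpa using h2
    rwa [map_ofNat] at this
  set m := 2 * l + 1 with hm
  have hmo : Odd m := odd_two_mul_add_one l
  have hmp : 0 < m := hmo.pos
  have hμ : IsPrimitiveRoot (ω ^ 2) m := hω.pow (by omega) (by rw [hm]; ring)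
  have hpos : 0 < 4 * l + 2 := by omega
  obtain ⟨v0, hv0, hv0o, hv0d, hv0u⟩ := hA.zero
  obtain ⟨vi, hvi, hvio, hvid, hviu⟩ := hA.pole
  have hroot : ∀ z : k, z ∈ nthRootsFinset m (1 : k) → z ^ (4 * l + 1 + 1) = 1 ∧
      (-z) ^ (4 * l + 1 + 1) = 1 := by
    intro z hz
    have h1 := (mem_nthRootsFinset hmp 1).1 hz
    have e : 4 * l + 1 + 1 = m * 2 := by rw [hm]; ring
    constructor
    · rw [e, pow_mul, h1, one_pow]
    · rw [e, pow_mul, Odd.neg_pow hmo, h1]; ring
  set S0 := nthRootsFinset (4 * l + 2) (1 : k) with hS0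
  have hS0' : ∀ z : k, z ∈ S0 ↔ z ^ (4 * l + 1 + 1) = 1 := fun z => by
    rw [hS0, mem_nthRootsFinset hpos]
  have hch : ∀ z : k, ∃ v : FF.Place k K, z ∈ S0 → (0 < v.ord (h - algebraMap k K z) ∧
      Odd (v.ord (h - algebraMap k K z)) ∧ Odd (S.deg v) ∧
      ∀ w : FF.Place k K, 0 < w.ord (h - algebraMap k K z) → w = v) := by
    intro z
    by_cases hz : z ∈ S0
    · obtain ⟨v, hv⟩ := hA.shift z ((hS0' z).1 hz)
      exact ⟨v, fun _ => hv⟩
    · exact ⟨v0, fun h => absurd h hz⟩
  choose V hV using hch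
  have hz0 : ∀ z ∈ S0, z ≠ 0 := by
    rintro z hz rfl
    have := (hS0' 0).1 hz
    rw [zero_pow (by omega)] at this
    exact zero_ne_one this
  set α : K := 1 + h ^ m with hα
  set β : K := 1 - h ^ m with hβ
  have hd : α - β = 2 * h ^ m := by rw [hα, hβ]; ring
  have hh0 : h ≠ 0 := ne_of_pos v0 hv0.ne'
  have hipos : ∀ v : FF.Place k K, v.ord h < 0 → v.ord (h ^ m) < 0 := by
    intro v hv
    rw [v.ord_pow]
    exact mul_neg_of_pos_of_neg (by exact_mod_cast hmp) hv
  have hα0 : α ≠ 0 := (ord_one_add vi (hipos vi hvi)).1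
  have hβ0 : β ≠ 0 := (ord_one_sub vi (hipos vi hvi)).1
  have hd0 : α - β ≠ 0 := by rw [hd]; exact mul_ne_zero h2K (pow_ne_zero _ hh0)
  have hord2 : ∀ v : FF.Place k K, v.ord (α - β) = m * v.ord h := by
    intro v
    rw [hd, v.ord_mul h2K (pow_ne_zero _ hh0), v.ord_pow]
    have : v.ord (2 : K) = 0 := by
      have := v.ord_const h2
      rwa [map_ofNat] at this
    rw [this, zero_add]
  -- orders of `α`, `β` at places where `h` is regular
  have hfa : α = ∏ z ∈ nthRootsFinset m (1 : k), (h - algebraMap k K (-z)) :=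
    one_add_eq hmo hμ h
  have hfb : β = -∏ z ∈ nthRootsFinset m (1 : k), (h - algebraMap k K z) :=
    one_sub_eq hmp hμ h
  have hsh0 : ∀ z : k, h - algebraMap k K z ≠ 0 := by
    intro z e
    have h1 : h = algebraMap k K z := by linear_combination e
    rw [h1] at hvi
    by_cases hz : z = 0
    · rw [hz, map_zero, vi.ord_zero] at hvi
      exact lt_irrefl _ hvi
    · rw [vi.ord_const hz] at hvi
      exact lt_irrefl _ hvi
  set B : Finset (FF.Place k K) := insert vi (insert v0 (S0.image V)) with hB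
  have hnot : ∀ v : FF.Place k K, v ∉ B → v ≠ vi ∧ v ≠ v0 ∧ ∀ z ∈ S0, v ≠ V z := by
    intro v hv
    rw [hB, Finset.mem_insert, Finset.mem_insert, Finset.mem_image] at hv
    push Not at hv
    exact ⟨hv.1, hv.2.1, fun z hz e => hv.2.2 z hz e.symm⟩
  have hgood : ∀ v : FF.Place k K, v ∉ B → v.ord β = v.ord α ∧ v.ord (α - β) = v.ord α ∧
      Even (v.ord α) := by
    intro v hv
    obtain ⟨g1, g2, g3⟩ := hnot v hv
    rw [hord2]
    rcases lt_trichotomy (v.ord h) 0 with hneg | hzero | hposv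
    · have e1 := (ord_one_add v (hipos v hneg)).2
      have e2 := (ord_one_sub v (hipos v hneg)).2
      rw [← hα, v.ord_pow] at e1
      rw [← hβ, v.ord_pow] at e2
      rw [e1, e2]
      refine ⟨rfl, rfl, Even.mul_left ?_ _⟩
      rw [← Int.not_odd_iff_even]
      intro ho
      exact g1 (hviu v hneg ho)
    · have key : ∀ z ∈ S0, v.ord (h - algebraMap k K z) = 0 := by
        intro z hz
        have h1 := ord_nonneg_sub v hzero.ge z
        have h3 : ¬ 0 < v.ord (h - algebraMap k K z) := fun h5 => g3 z hz ((hV z hz).2.2.2 v h5)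
        omega
      have e1 : v.ord α = 0 := by
        rw [hfa, ord_prod v _ _ (fun z _ => hsh0 _)]
        exact Finset.sum_eq_zero fun z hz => key _ ((hS0' _).2 (hroot z hz).2)
      have e2 : v.ord β = 0 := by
        rw [hfb, v.ord_neg, ord_prod v _ _ (fun z _ => hsh0 _)]
        exact Finset.sum_eq_zero fun z hz => key _ ((hS0' _).2 (hroot z hz).1)
      rw [e1, e2, hzero, mul_zero]
      exact ⟨rfl, rfl, Even.zero⟩
    · exact absurd (hv0u v hposv) g2
  have hsa := sa k K h6 hc hcl α β hα0 hβ0 (sub_ne_zero.1 hd0) B hgood M hM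
  -- the sum
  set F : FF.Place k K → ℕ := fun v =>
    (if Even (min (v.ord α) (v.ord β)) then 1 else 2) * twoPart (S.deg v) with hF
  have f1 : F vi ≤ 2 := by
    rw [hF]
    simp only
    rw [twoPart_odd hvid, mul_one]
    split_ifs <;> omega
  have f2 : F v0 = 1 := by
    have hp : 0 < v0.ord (h ^ m) := by
      rw [v0.ord_pow]
      exact mul_pos (by exact_mod_cast hmp) hv0
    have e1 := (ord_one_add' v0 hp).2
    have e2 := (ord_one_sub' v0 hp).2
    rw [← hα] at e1
    rw [← hβ] at e2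
    rw [hF]
    simp only
    rw [twoPart_odd hv0d, mul_one, e1, e2, min_self, if_pos Even.zero]
  have f3 : ∀ z ∈ S0, F (V z) = 1 := by
    intro z hz
    obtain ⟨g1, g2, g3, g4⟩ := hV z hz
    have e0 := (ord_of_zero (V z) g1 (hz0 z hz)).2
    have n1 : 0 ≤ (V z).ord α := by
      rw [hfa, ord_prod _ _ _ (fun z _ => hsh0 _)]
      exact Finset.sum_nonneg fun w _ => ord_nonneg_sub _ e0.ge _
    have n2 : 0 ≤ (V z).ord β := by
      rw [hfb, (V z).ord_neg, ord_prod _ _ _ (fun z _ => hsh0 _)]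
      exact Finset.sum_nonneg fun w _ => ord_nonneg_sub _ e0.ge _
    have n3 := (V z).ord_sub hα0 hβ0 hd0
    rw [hord2, e0, mul_zero] at n3
    have e1 : min ((V z).ord α) ((V z).ord β) = 0 := by omega
    rw [hF]
    simp only
    rw [twoPart_odd g3, mul_one, e1, if_pos Even.zero]
  have hcard : S0.card = 4 * l + 2 := hω.card_nthRootsFinset
  have f4 : ∑ v ∈ S0.image V, F v ≤ 4 * l + 2 := by
    calc ∑ v ∈ S0.image V, F v = ∑ v ∈ S0.image V, 1 := by
          refine Finset.sum_congr rfl fun v hv => ?_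
          obtain ⟨z, hz, rfl⟩ := Finset.mem_image.1 hv
          exact f3 z hz
      _ = (S0.image V).card := by rw [Finset.sum_const, smul_eq_mul, mul_one]
      _ ≤ S0.card := Finset.card_image_le
      _ = 4 * l + 2 := hcard
  have f5 : ∑ v ∈ B, F v ≤ F vi + (F v0 + ∑ v ∈ S0.image V, F v) :=
    (sum_insert_le _ _ _).trans (Nat.add_le_add_left (sum_insert_le _ _ _) _)
  have f6 : M + 4 ≤ ∑ v ∈ B, F v := hsa
  omega

end upper

end Pool.Agent.TH958.T4
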